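import Pool.Agent.R919.ST.Main

/-!
# MP_d61fbb_ag: the motivic Sato-Tate conjecture for the sum of an arbitrary motive and all but few
elliptic curves

Let `k` be a finitely generated field of characteristic `0`, `Γ` its Galois group, `ℓ` a prime number and
`K = ℚ_ℓ`. Let `M` be an ARBITRARY motive over `k` of an odd weight `n = 2 r + 1`, with a polarization
`φ`, let `E_j`, for `j` in an arbitrary set of indices, be elliptic curves over `k` without complex
multiplication, pairwise non-isogenous over the algebraic closure, and `M_j = h^1(E_j)(-r)`. All these
motives have the weight `n`, and `χ` is the character through which `Γ` acts on `ℚ_ℓ (-n)` (the values of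
the multiplier on the image of `Γ`). Let `ρ o` be the representation on `M` and `ρ j` the
representation on `M_j`; it has dimension two, determinant `χ`, no line over the algebraic closure is
stable under a subgroup of finite index, and there is an element no power of which has a double
eigenvalue (Serre).

Let `G₁` be the kernel of the character on the `ℓ`-adic monodromy group of a sum of these motives. It
is normal, and the quotient is the multiplicative group (`n ≠ 0`), so its invariants on the tensor
products are the sums of the spaces on which `Γ` acts by powers of `χ`: `kernelInvariants ρ χ f`. The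
invariants of the kernel on the motivic Galois group are the linear combinations of the classes of
the motivated cycles OVER `k` of all twists: `cls` of a `MotivatedSystem`; they are closed under
products. `SatoTate ρ χ Z f` says that all invariants of the first group in the tensor product
of the motives with indices `f x` are invariants of the second group. (If `G₁` is equal to the kernel of
the motivic Galois group for `M` then the representation `M` is semisimple, and so are the sums of `M` and
the `M_j`. Then all groups are reductive, are given by their invariants, and the groups are equal
if and only if the invariants are equal.)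

The theorem: there is a set `S` of at most `dim M / 2` exceptional indices (all `Linked` with `M`: there is
an equivariant homomorphism from a Lie algebra of endomorphisms of `M` onto the endomorphisms of trace zero
of `M_j`), which does not depend on motivated cycles, such that for all families `f` of indices outside `S`

* the invariants of `G₁` are sums of products of the invariants of `G₁` in tensor powers of `M` and in
  tensor powers of the single `M_j`;
* **the motivic Sato-Tate conjecture for `M` implies the motivic Sato-Tate conjecture for `M` and all
  `M_j` with `j ∉ S`** (for the single `M_j` the conjecture is known by Serre's theorem, it is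
  the hypothesis for `j ≠ o`).

The group `Γ` is the full Galois group of `k`: the theorem takes into account the component groups. It
is not assumed that `M` is semisimple, or an abelian motive.
-/

namespace Pool.Agent.Results.MP_d61fbb_ag.FewExceptionalCurves

open Matrix Pool.Agent.R919.ST Pool.Agent.R919.GT

theorem result {K Γ J : Type} [Field K] [CharZero K] [Group Γ] [DecidableEq J] {B : J → Type}
    [∀ j, Fintype (B j)] [∀ j, DecidableEq (B j)] (ρ : ∀ j, Γ →* Matrix (B j) (B j) K)
    (χ : Γ →* Kˣ) (o : J) (Q : Matrix (B o) (B o) K) (hQu : IsUnit Q)
    (hQ : ∀ γ, (ρ o γ)ᵀ * Q * ρ o γ = (χ γ : K) • Q)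
    (h1 : ∀ j, j ≠ o → IsEll χ (ρ j))
    (h2 : ∀ i j, i ≠ o → j ≠ o → i ≠ j → NonIso (ρ i) (ρ j)) :
    ∃ S : Finset J, o ∉ S ∧ 2 * S.card ≤ Fintype.card (B o) ∧ (∀ i ∈ S, Linked (ρ o) (ρ i)) ∧
      (∀ (κ : Type) [Fintype κ] [DecidableEq κ] (f : κ → J), (∀ x, f x ∉ S) →
        kernelInvariants ρ χ f ≤ ∏ j ∈ Finset.univ.image f, kernelInvariantsOf ρ χ f j) ∧
      ∀ Z : MotivatedSystem K B, (∀ j ∉ S, SatoTateAt ρ χ Z j) →
        ∀ (κ : Type) [Fintype κ] [DecidableEq κ] (f : κ → J), (∀ x, f x ∉ S) →
          SatoTate ρ χ Z f :=
  main ρ χ o Q hQu (fun γ => ⟨_, hQ γ⟩) h1 h2

end Pool.Agent.Results.MP_d61fbb_ag.FewExceptionalCurves
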