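import Mathlib
import Pool.Agent.R932.GR.St

/-!
# The motivic Sato-Tate conjecture from fourth moments at one prime number

Let `M = A ⊕ M_1 ⊕ ... ⊕ M_r` be a motive (of André, or for absolute Hodge cycles) over a field `k` which is
finitely generated over `ℚ`, pure of the weight `w`, where `A` is an Artin motive (`A = 0` if `w ≠ 0`) and `M_i` has
the rank `N_i` and the nondegenerate form `J_i : M_i ⊗ M_i → 1(-w)` given by a polarization, so that `J_i` is
alternating, or symmetric; in the second case we suppose that `w = 0` (after a Tate twist) and `N_i ≥ 5`,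
`N_i ≠ 6`. We choose rational bases of the Betti realizations, and so by Artin's comparison isomorphism bases of
the `ℓ`-adic realizations for all prime numbers `ℓ`; `JA` is a polarization of `A`. The polarization of `M` is the
sum of the forms, and the kernel of the character `χ` on the motivic Galois group `𝒢_k(M)`, and on the `ℓ`-adic
monodromy group `G_{ℓ,k}(M)` (the Zariski closure of the image of the Galois group), is the subgroup of the
isometries of all the forms. The motivic Galois group is an algebraic group over `ℚ` in `GL(A) × ∏ GL(M_i)`,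
given by polynomials with rational coefficients in the entries (`G` below), and we use only two properties
(`IsMotivicGroup`):
* the image of the absolute Galois group of `k` in the realizations is contained in it;
* the determinants: for each `(x_1, ..., x_r, a) ∈ 𝒢_k(M)(ℂ)` which preserves the forms there is a `σ` in the Galois
  group such that `a = α(σ)`, the matrix of the action of `σ` on `A`, and for all `i` with symmetric `J_i` the
  determinant of `x_i` is the sign by which `σ` acts on `det M_i`. (The motive `A ⊕ ⊕ det M_i` is an Artin motive, and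
  the motivic Galois group of an Artin motive is the image of the Galois group. That `det M_i` with its form
  is an Artin motive is known for absolute Hodge cycles.)
So the Mumford-Tate group is not mentioned: that it contains the groups `Sp(J_i)`, `SO(J_i)` is a part of the
conclusion.

The Galois group of `k` (or of the fundamental group `Γ` of a model over which `M` extends) acts on `A` through a
finite quotient by rational matrices `α`, and at the places `v` of good reduction of a number field `K` (`k = K`, or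
`K` is the residue field of a closed point of the generic fibre of the model and `s : G_K → Γ` is the homomorphism
given by this point) the Frobenius polynomials `P_{i,v}` of the `M_i` are rational and independent of
`ℓ` (Deligne).

The motivic Sato-Tate conjecture at `ℓ` for `M` (the question of Banaszak and Kedlaya) is the equality
`G_{1,ℓ,k}(M) = 𝒢_{1,k}(M)` over `ℚ_ℓ` of the kernels of `χ` (`MotivicSatoTate`).

**Theorem.** Suppose that for ONE prime number `ℓ₀` (`ℓ₀ ≠ 2` for alternating forms, `ℓ₀` does not divide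
`N_i - 1` for odd `N_i`, and `ℓ₀` does not divide `(N_i - 2)(N_i - 4)` and the valuation of `det J_i` is even for
even `N_i` and symmetric `J_i`), and for the fibre at one closed point, the fourth moments are the expected ones:
(T) the Tate classes in the words `(i, i, j, j)`, that is in `M_i^{⊗2} ⊗ M_j^{⊗2}`, are killed by the Lie algebras
of the isometry groups of the forms (by the first fundamental theorem of invariant theory they are then the
combinations of the three products of two forms `J_i` if `i = j`, and the multiples of `J_i ⊗ J_j` if `i ≠ j`);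
(S) the squares `M_i^{⊗2}` are semisimple;
and for all `i` some place `v` of good reduction prime to `ℓ₀` is not supersingular for `M_i`.
Then
(1) the motivic Sato-Tate conjecture for `M` is true for all prime numbers `ℓ` outside a set of natural density
zero;
(2) it is true for EVERY prime number `ℓ` such that the `ℓ`-adic realizations of the `M_i` are semisimple and
have no endomorphisms besides the scalars over the finite extensions of `k`.

In particular the groups `G_{1,ℓ,k}(M)` for these `ℓ` come from one algebraic group over `ℚ`, as in the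
algebraic Sato-Tate conjecture. So a condition on finitely many tensors at a single prime gives the
equality of the full kernels, with their component groups, at 100 percent of the primes.

Idea of the proof. (A) Larsen's alternative at `ℓ₀`, infinitesimally, for every `M_i`; the lemma of Goursat, Kolchin
and Ribet and (T) for `i ≠ j` give the full joint Lie algebra at `ℓ₀`. (B) Project PO of this run
(`FourthPowerSuffices` for MP_6c781a, where the equality of the spaces of Tate and Hodge classes is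
proved, under a hypothesis on the Mumford-Tate group): the joint Lie algebra is full at 100 percent of
the primes, and at the primes in (2). (C) At these primes the image contains a neighbourhood of `1` in the product
of the isometry groups, which is Zariski dense in the product of the groups of isometries of determinant one
(over the algebraic closure; products of two Cayley transforms), and the multiplier of some Frobenius element
has infinite order; so the closure of the image of each coset of an open subgroup contains all isometries with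
the determinants of the coset, and the components are those of `𝒢_k(M)`.

The Cayley parametrization and the Zariski density were proved in this run by helper391 and helper310;
for the helpers of projects OP and PO see `FourthPowerSuffices`. Projects ZO, ZI, ZS, ZD of the starting files
are used.
-/

set_option autoImplicit false

namespace Pool.Agent.Results.MP_d61fbb_ag.FourthMomentsAtOnePrime

open Matrix Polynomial Filter Topology NumberField IsDedekindDomain

noncomputable section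

/-- the absolute Galois group of `K`, with its profinite (Krull) topology -/
abbrev AbsoluteGaloisGroup (K : Type) [Field K] : Type := Gal(AlgebraicClosure K/K)

/-- `σ` is an (arithmetic) Frobenius element at the prime `v` of the number field `K`: for some prime
`Q` of the algebraic closure above `v` it acts on the residue field as `x ↦ x ^ N(v)` -/
def IsFrobenius {K : Type} [Field K] [NumberField K] (v : HeightOneSpectrum (𝓞 K))
    (σ : AbsoluteGaloisGroup K) : Prop :=
  ∃ Q : Ideal (𝓞 (AlgebraicClosure K)), Q.IsMaximal ∧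
    Q.comap (algebraMap (𝓞 K) (𝓞 (AlgebraicClosure K))) = v.asIdeal ∧
    ∀ x : 𝓞 (AlgebraicClosure K), σ • x - x ^ Ideal.absNorm v.asIdeal ∈ Q

/-- the form with the rational matrix `J` is nondegenerate, and either alternating of positive rank (and
the weight `w` is arbitrary) or symmetric of rank `N ≥ 5`, `N ≠ 6` (and `w = 0`) -/
def IsPolarization {N : ℕ} (w : ℕ) (J : Matrix (Fin N) (Fin N) ℚ) : Prop :=
  J.det ≠ 0 ∧ ((Jᵀ = -J ∧ 0 < N) ∨ (Jᵀ = J ∧ 5 ≤ N ∧ N ≠ 6 ∧ w = 0))

/-- the conditions on the prime number `ℓ₀` -/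
def IsAllowed (ℓ : ℕ) {N : ℕ} (J : Matrix (Fin N) (Fin N) ℚ) : Prop :=
  (Jᵀ = -J → ℓ ≠ 2) ∧ (Jᵀ = J → Odd N → ¬ ℓ ∣ N - 1) ∧
    (Jᵀ = J → Even N → ¬ ℓ ∣ (N - 2) * (N - 4) ∧ Even (padicValRat ℓ J.det))

/-- `κ` is the inverse of the cyclotomic character: its value at (the image under `s` of) the geometric
Frobenius elements `σ⁻¹` (`σ` arithmetic) at the places `v ∉ S` prime to `ℓ` is `N(v)` -/
def IsCyclotomic {K : Type} [Field K] [NumberField K] {Γ : Type} [Group Γ]
    (s : AbsoluteGaloisGroup K →* Γ) (ℓ : ℕ) [Fact ℓ.Prime]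
    (κ : Γ →* ℚ_[ℓ]) (S : Set (HeightOneSpectrum (𝓞 K))) : Prop :=
  ∀ v ∉ S, (ℓ : 𝓞 K) ∉ v.asIdeal → ∀ σ : AbsoluteGaloisGroup K, IsFrobenius v σ →
    κ (s σ⁻¹) = (Ideal.absNorm v.asIdeal : ℚ_[ℓ])

/-- `ρ` is a continuous representation on `ℚ_ℓ ^ N`, it multiplies the form `J` by the power `κ ^ w`, and for
the places `v ∉ S` prime to `ℓ` the characteristic polynomial of (the image under `s` of) the geometric
Frobenius elements at `v` is `P v` -/
def IsSystem {K : Type} [Field K] [NumberField K] {Γ : Type} [Group Γ] [TopologicalSpace Γ]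
    (s : AbsoluteGaloisGroup K →* Γ) (N w ℓ : ℕ) [Fact ℓ.Prime] (κ : Γ →* ℚ_[ℓ])
    (ρ : Γ →* Matrix (Fin N) (Fin N) ℚ_[ℓ]) (J : Matrix (Fin N) (Fin N) ℚ)
    (S : Set (HeightOneSpectrum (𝓞 K))) (P : HeightOneSpectrum (𝓞 K) → ℚ[X]) : Prop :=
  Continuous ρ ∧
    (∀ σ, (ρ σ)ᵀ * J.map (algebraMap ℚ ℚ_[ℓ]) * ρ σ = κ σ ^ w • J.map (algebraMap ℚ ℚ_[ℓ])) ∧
    ∀ v ∉ S, (ℓ : 𝓞 K) ∉ v.asIdeal → ∀ σ : AbsoluteGaloisGroup K, IsFrobenius v σ →
      (ρ (s σ⁻¹)).charpoly = (P v).map (algebraMap ℚ ℚ_[ℓ])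

/-- the representation on the Artin motive: an open subgroup acts trivially -/
def IsArtin {Γ : Type} [Group Γ] [TopologicalSpace Γ] {m : ℕ}
    (α : Γ →* Matrix (Fin m) (Fin m) ℚ) : Prop :=
  ∃ U : Subgroup Γ, IsOpen (U : Set Γ) ∧ ∀ σ ∈ U, α σ = 1

variable {I : Type} {N : I → ℕ} {m : ℕ}

/-- polynomials over `R` in the entries of matrices `x i` (`i ∈ I`) of the sizes `N i` and of a matrix `a` of
the size `m` -/
abbrev EntryPolynomial (R : Type) [Field R] {I : Type} (N : I → ℕ) (m : ℕ) : Type :=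
  MvPolynomial ((Σ i, Fin (N i) × Fin (N i)) ⊕ (Fin m × Fin m)) R

/-- the value at matrices with entries in an extension `F` of `R` -/
def value {R F : Type} [Field R] [Field F] [Algebra R F] (f : EntryPolynomial R N m)
    (x : ∀ i, Matrix (Fin (N i)) (Fin (N i)) F) (a : Matrix (Fin m) (Fin m) F) : F :=
  MvPolynomial.aeval (Sum.elim (fun y => x y.1 y.2.1 y.2.2) fun y => a y.1 y.2) f

/-- `(x, a)` is an `F`-valued point of the algebraic group over `ℚ` given by the rational polynomials in `G` -/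
def InGroup {F : Type} [Field F] [Algebra ℚ F] (G : Set (EntryPolynomial ℚ N m))
    (x : ∀ i, Matrix (Fin (N i)) (Fin (N i)) F) (a : Matrix (Fin m) (Fin m) F) : Prop :=
  (∀ i, (x i).det ≠ 0) ∧ a.det ≠ 0 ∧ ∀ f ∈ G, value f x a = 0

/-- `(x, a)` preserves all the forms, that is the polarization of `M`: it belongs to the kernel of `χ` -/
def IsIsometry {F : Type} [Field F] [Algebra ℚ F] (J : ∀ i, Matrix (Fin (N i)) (Fin (N i)) ℚ)
    (JA : Matrix (Fin m) (Fin m) ℚ) (x : ∀ i, Matrix (Fin (N i)) (Fin (N i)) F)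
    (a : Matrix (Fin m) (Fin m) F) : Prop :=
  (∀ i, (x i)ᵀ * (J i).map (algebraMap ℚ F) * x i = (J i).map (algebraMap ℚ F)) ∧
    aᵀ * JA.map (algebraMap ℚ F) * a = JA.map (algebraMap ℚ F)

/-- The properties of the motivic Galois group: it contains the images of the Galois group, and for each
complex element which preserves the forms there is an element of the Galois group with the same action on `A`
and with the same determinants on the `M_i` with symmetric forms (the latter are `1` or `-1`). -/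
def IsMotivicGroup {Γ : Type} [Group Γ] (J : ∀ i, Matrix (Fin (N i)) (Fin (N i)) ℚ)
    (JA : Matrix (Fin m) (Fin m) ℚ)
    (ρ : ∀ (i : I) (ℓ : ℕ) [Fact ℓ.Prime], Γ →* Matrix (Fin (N i)) (Fin (N i)) ℚ_[ℓ])
    (α : Γ →* Matrix (Fin m) (Fin m) ℚ) (G : Set (EntryPolynomial ℚ N m)) : Prop :=
  (∀ (ℓ : ℕ) [Fact ℓ.Prime] (σ : Γ),
    InGroup G (fun i => ρ i ℓ σ) ((α σ).map (algebraMap ℚ ℚ_[ℓ]))) ∧
  ∀ (x : ∀ i, Matrix (Fin (N i)) (Fin (N i)) ℂ) (a : Matrix (Fin m) (Fin m) ℂ), InGroup G x a →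
    IsIsometry J JA x a → ∃ σ : Γ, a = (α σ).map (algebraMap ℚ ℂ) ∧ ∀ i, (J i)ᵀ = J i →
      ∀ (ℓ : ℕ) [Fact ℓ.Prime], ((x i).det = 1 ↔ (ρ i ℓ σ).det = 1)

/-- `(x, a)` belongs to the `ℓ`-adic monodromy group, that is to the Zariski closure of the image: every
polynomial in the entries, with coefficients in the algebraic closure of `ℚ_ℓ`, which vanishes on the image,
vanishes at `(x, a)` -/
def InMonodromyGroup {Γ : Type} [Group Γ] {ℓ : ℕ} [Fact ℓ.Prime]
    (ρ : ∀ i, Γ →* Matrix (Fin (N i)) (Fin (N i)) ℚ_[ℓ]) (α : Γ →* Matrix (Fin m) (Fin m) ℚ)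
    (x : ∀ i, Matrix (Fin (N i)) (Fin (N i)) (AlgebraicClosure ℚ_[ℓ]))
    (a : Matrix (Fin m) (Fin m) (AlgebraicClosure ℚ_[ℓ])) : Prop :=
  ∀ f : EntryPolynomial (AlgebraicClosure ℚ_[ℓ]) N m,
    (∀ σ, value f (fun i => (ρ i σ).map (algebraMap ℚ_[ℓ] (AlgebraicClosure ℚ_[ℓ])))
      ((α σ).map (algebraMap ℚ (AlgebraicClosure ℚ_[ℓ]))) = 0) → value f x a = 0

/-- the motivic Sato-Tate conjecture: the kernels of `χ` on the `ℓ`-adic monodromy group and on the group
given by `G` are equal -/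
def MotivicSatoTate {Γ : Type} [Group Γ] {ℓ : ℕ} [Fact ℓ.Prime]
    (J : ∀ i, Matrix (Fin (N i)) (Fin (N i)) ℚ) (JA : Matrix (Fin m) (Fin m) ℚ)
    (G : Set (EntryPolynomial ℚ N m))
    (ρ : ∀ i, Γ →* Matrix (Fin (N i)) (Fin (N i)) ℚ_[ℓ]) (α : Γ →* Matrix (Fin m) (Fin m) ℚ) :
    Prop :=
  ∀ (x : ∀ i, Matrix (Fin (N i)) (Fin (N i)) (AlgebraicClosure ℚ_[ℓ]))
    (a : Matrix (Fin m) (Fin m) (AlgebraicClosure ℚ_[ℓ])), IsIsometry J JA x a →
    (InMonodromyGroup ρ α x a ↔ InGroup G x a)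

/-- the value of the tensor (multilinear form) with the coefficients `T` at the vectors `v t` -/
def tensorValue {F : Type} [Field F] {k : ℕ} {M : Fin k → ℕ} (T : (∀ t, Fin (M t)) → F)
    (v : ∀ t, Fin (M t) → F) : F :=
  ∑ r, T r * ∏ t, v t (r t)

/-- the `ℓ`-adic tensor `T` in the word `b` of the weight `2 j` is a Tate class: an open subgroup
acts on it as the character `κ ^ j` -/
def IsTateClass {Γ : Type} [Group Γ] [TopologicalSpace Γ] {ℓ : ℕ} [Fact ℓ.Prime]
    (ρ : ∀ i, Γ →* Matrix (Fin (N i)) (Fin (N i)) ℚ_[ℓ])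
    (κ : Γ →* ℚ_[ℓ]) {k : ℕ} (b : Fin k → I) (j : ℕ)
    (T : (∀ t, Fin (N (b t))) → ℚ_[ℓ]) : Prop :=
  ∃ U : Subgroup Γ, IsOpen (U : Set Γ) ∧
    ∀ σ ∈ U, ∀ v : ∀ t, Fin (N (b t)) → ℚ_[ℓ],
      tensorValue T (fun t => ρ (b t) σ *ᵥ v t) = κ σ ^ j * tensorValue T v

/-- the tensor `T` in the word `b` is killed by the Lie algebras of the isometry groups of the forms -/
def IsKilled (J : ∀ i, Matrix (Fin (N i)) (Fin (N i)) ℚ) {ℓ : ℕ} [Fact ℓ.Prime] {k : ℕ}
    (b : Fin k → I) (T : (∀ t, Fin (N (b t))) → ℚ_[ℓ]) : Prop :=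
  ∀ X : ∀ i, Matrix (Fin (N i)) (Fin (N i)) ℚ_[ℓ],
    (∀ i, (X i)ᵀ * (J i).map (algebraMap ℚ ℚ_[ℓ]) + (J i).map (algebraMap ℚ ℚ_[ℓ]) * X i = 0) →
    ∀ v : ∀ t, Fin (N (b t)) → ℚ_[ℓ],
      ∑ t, tensorValue T (Function.update v t (X (b t) *ᵥ v t)) = 0

/-- the representation is semisimple: every stable subspace has a stable complement -/
def IsSemisimple {Γ : Type} [Group Γ] {n : ℕ} {ℓ : ℕ} [Fact ℓ.Prime]
    (ρ : Γ →* Matrix (Fin n) (Fin n) ℚ_[ℓ]) : Prop :=
  ∀ W : Submodule ℚ_[ℓ] (Fin n → ℚ_[ℓ]), (∀ σ, ∀ w ∈ W, ρ σ *ᵥ w ∈ W) →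
    ∃ W' : Submodule ℚ_[ℓ] (Fin n → ℚ_[ℓ]), IsCompl W W' ∧ ∀ σ, ∀ w ∈ W', ρ σ *ᵥ w ∈ W'

/-- over open subgroups the representation has no endomorphisms besides the scalars -/
def HasScalarEndomorphisms {Γ : Type} [Group Γ] [TopologicalSpace Γ] {n : ℕ} {ℓ : ℕ}
    [Fact ℓ.Prime] (ρ : Γ →* Matrix (Fin n) (Fin n) ℚ_[ℓ]) : Prop :=
  ∀ (A : Matrix (Fin n) (Fin n) ℚ_[ℓ]) (U : Subgroup Γ), IsOpen (U : Set Γ) →
    (∀ σ ∈ U, A * ρ σ = ρ σ * A) → ∃ z : ℚ_[ℓ], A = z • (1 : Matrix (Fin n) (Fin n) ℚ_[ℓ])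

/-- the representation on the endomorphisms of `ℚ_ℓ ^ n` is semisimple -/
def IsSemisimpleOnSquare {Γ : Type} [Group Γ] {n : ℕ} {ℓ : ℕ} [Fact ℓ.Prime]
    (ρ : Γ →* Matrix (Fin n) (Fin n) ℚ_[ℓ]) : Prop :=
  ∀ W : Submodule ℚ_[ℓ] (Matrix (Fin n) (Fin n) ℚ_[ℓ]),
    (∀ σ, ∀ A ∈ W, ρ σ * A * ρ σ⁻¹ ∈ W) →
    ∃ W' : Submodule ℚ_[ℓ] (Matrix (Fin n) (Fin n) ℚ_[ℓ]), IsCompl W W' ∧
      ∀ σ, ∀ A ∈ W', ρ σ * A * ρ σ⁻¹ ∈ W'

/-- the place `v` is supersingular for the weight `w`: for some `n > 0` all roots `x` of `P v` satisfy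
`x^(2n) = (N(v)^w)^n` -/
def IsSupersingular {K : Type} [Field K] [NumberField K] (w : ℕ)
    (P : HeightOneSpectrum (𝓞 K) → ℚ[X]) (v : HeightOneSpectrum (𝓞 K)) : Prop :=
  ∃ n : ℕ, 0 < n ∧ ∀ x : ℂ, aeval x (P v) = 0 →
    x ^ (2 * n) = (((Ideal.absNorm v.asIdeal : ℚ) ^ w : ℚ) : ℂ) ^ n

/-- the set `A` of prime numbers has natural density zero -/
def HasDensityZero (A : Set ℕ) : Prop :=
  Tendsto (fun n : ℕ => (Nat.card {ℓ : ℕ // ℓ ≤ n ∧ ℓ ∈ A} : ℝ) / (Nat.primeCounting n : ℝ))
    atTop (𝓝 0)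

/-- **The fourth moments at one prime number imply the motivic Sato-Tate conjecture for
`M = A ⊕ M_1 ⊕ ... ⊕ M_r` at 100 percent of the prime numbers, and at every prime number at which the `M_i` are
semisimple with scalar endomorphisms.** -/
theorem result (K : Type) [Field K] [NumberField K] (Γ : Type) [Group Γ] [TopologicalSpace Γ]
    [IsTopologicalGroup Γ] [CompactSpace Γ] (s : AbsoluteGaloisGroup K →* Γ) (hs : Continuous s)
    (w : ℕ) (I : Type) [Fintype I] (N : I → ℕ) (J : ∀ i, Matrix (Fin (N i)) (Fin (N i)) ℚ)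
    (hJ : ∀ i, IsPolarization w (J i))
    (S : Set (HeightOneSpectrum (𝓞 K))) (hS : S.Finite)
    (P : I → HeightOneSpectrum (𝓞 K) → ℚ[X])
    (κ : ∀ (ℓ : ℕ) [Fact ℓ.Prime], Γ →* ℚ_[ℓ])
    (hκ : ∀ (ℓ : ℕ) [Fact ℓ.Prime], IsCyclotomic s ℓ (κ ℓ) S)
    (ρ : ∀ (i : I) (ℓ : ℕ) [Fact ℓ.Prime], Γ →* Matrix (Fin (N i)) (Fin (N i)) ℚ_[ℓ])
    (hρ : ∀ (i : I) (ℓ : ℕ) [Fact ℓ.Prime], IsSystem s (N i) w ℓ (κ ℓ) (ρ i ℓ) (J i) S (P i))
    (m : ℕ) (JA : Matrix (Fin m) (Fin m) ℚ) (hJA : JA.det ≠ 0)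
    (α : Γ →* Matrix (Fin m) (Fin m) ℚ) (hα : IsArtin α)
    -- the motivic Galois group
    (G : Set (EntryPolynomial ℚ N m)) (hG : IsMotivicGroup J JA ρ α G)
    -- the prime number `ℓ₀`
    (ℓ₀ : ℕ) [Fact ℓ₀.Prime] (hℓ₀ : ∀ i, IsAllowed ℓ₀ (J i))
    (hT : ∀ b : Fin 4 → I, b 0 = b 1 → b 2 = b 3 → ∀ T,
      IsTateClass (fun i => (ρ i ℓ₀).comp s) ((κ ℓ₀).comp s) b (2 * w) T → IsKilled J b T)
    (hss : ∀ i, IsSemisimpleOnSquare ((ρ i ℓ₀).comp s))
    (hns : ∀ i, ∃ v ∉ S, (ℓ₀ : 𝓞 K) ∉ v.asIdeal ∧ ¬ IsSupersingular w (P i) v) :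
    HasDensityZero {ℓ | ∃ _ : Fact ℓ.Prime, ¬ MotivicSatoTate J JA G (fun i => ρ i ℓ) α} ∧
    ∀ (ℓ : ℕ) [Fact ℓ.Prime], (∀ i, IsSemisimple (ρ i ℓ)) →
      (∀ i, HasScalarEndomorphisms (ρ i ℓ)) → MotivicSatoTate J JA G (fun i => ρ i ℓ) α := by
  classical
  -- the kinds of the forms
  have hkd : ∀ i, ∃ kd : R932.PO.Kind, R932.PO.Fits kd (J i) ∧
      R932.PO.Allows kd (N i) ℓ₀ (R932.PO.JL J ℓ₀ i) := by
    intro i
    rcases (hJ i).2 with ⟨h1, h2⟩ | ⟨h1, h2, h3, -⟩
    · exact ⟨.sym, ⟨h1, h2⟩, (hℓ₀ i).1 h1⟩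
    · rcases Nat.even_or_odd (N i) with he | ho
      · have h4 := (hℓ₀ i).2.2 h1 he
        refine ⟨.even, ⟨h1, he, ?_⟩, h4.1, ?_⟩
        · obtain ⟨m, hm⟩ := he
          omega
        · have h5 : (R932.PO.JL J ℓ₀ i).det = (((J i).det : ℚ) : ℚ_[ℓ₀]) := by
            show ((J i).map (algebraMap ℚ ℚ_[ℓ₀])).det = _
            rw [← eq_ratCast (algebraMap ℚ ℚ_[ℓ₀]), RingHom.map_det]
            rfl
          show Even (Padic.valuation (R932.PO.JL J ℓ₀ i).det)
          rw [h5, Padic.valuation_ratCast]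
          exact h4.2
      · exact ⟨.odd, ⟨h1, ho, h2⟩, (hℓ₀ i).2.1 h1 ho⟩
  choose kd hfit hal using hkd
  have hwJ : ∀ i, (J i)ᵀ = J i → w = 0 := by
    intro i hi
    rcases (hJ i).2 with ⟨h1, h2⟩ | ⟨-, -, -, h3⟩
    · exfalso
      apply (hJ i).1
      have h3 : J i = 0 := by
        have h4 : J i = -J i := hi.symm.trans h1
        ext p q
        have h5 : J i p q = -J i p q := congrFun (congrFun h4 p) q
        rw [Matrix.zero_apply]
        linarith
      have : Nonempty (Fin (N i)) := ⟨⟨0, h2⟩⟩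
      rw [h3]
      exact det_zero
    · exact h3
  obtain ⟨U, hU, hUα⟩ := hα
  obtain ⟨hG1, hG2⟩ := hG
  have hadet : ∀ {F : Type} [Field F] [Algebra ℚ F] (a : Matrix (Fin m) (Fin m) F),
      aᵀ * JA.map (algebraMap ℚ F) * a = JA.map (algebraMap ℚ F) → a.det ≠ 0 := by
    intro F _ _ a ha h0
    have h1 := congrArg Matrix.det ha
    rw [det_mul, h0, mul_zero] at h1
    exact R932.PO.det_map_ne (algebraMap ℚ F) hJA h1.symm
  have hxdet : ∀ {F : Type} [Field F] [Algebra ℚ F] (i : I) (x : Matrix (Fin (N i)) (Fin (N i)) F),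
      xᵀ * (J i).map (algebraMap ℚ F) * x = (J i).map (algebraMap ℚ F) → x.det ≠ 0 := by
    intro F _ _ i x ha h0
    have h1 := congrArg Matrix.det ha
    rw [det_mul, h0, mul_zero] at h1
    exact R932.PO.det_map_ne (algebraMap ℚ F) (hJ i).1 h1.symm
  have hcompat : ∀ (ℓ : ℕ) [Fact ℓ.Prime] (i : I), R932.GR.up (R932.PO.JL J ℓ) i =
      (J i).map (algebraMap ℚ (AlgebraicClosure ℚ_[ℓ])) := by
    intro ℓ _ i
    ext k l
    have h7 : (algebraMap ℚ_[ℓ] (AlgebraicClosure ℚ_[ℓ])).comp (algebraMap ℚ ℚ_[ℓ]) =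
        algebraMap ℚ (AlgebraicClosure ℚ_[ℓ]) := Subsingleton.elim _ _
    exact RingHom.congr_fun h7 (J i k l)
  -- the two forms of the conjecture
  have hiff : ∀ (ℓ : ℕ) [Fact ℓ.Prime]
      (r : ∀ i, Γ →* Matrix (Fin (N i)) (Fin (N i)) ℚ_[ℓ]),
      R932.GR.MSato J JA G r α → MotivicSatoTate J JA G r α := by
    intro ℓ _ r h x a hxa
    have hx : ∀ i, (x i).det ≠ 0 := fun i => hxdet i (x i) (hxa.1 i)
    have ha : a.det ≠ 0 := hadet a hxa.2
    have h2 := h x a (fun i => by
      have h3 := hxa.1 i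
      rw [← hcompat] at h3
      show (x i)ᵀ * _ * x i = (1 : AlgebraicClosure ℚ_[ℓ]) • _
      rw [one_smul]
      exact h3) hxa.2
    refine Iff.trans ?_ (h2.trans ⟨fun h => ⟨hx, ha, fun f hf => h f hf⟩,
      fun h f hf => h.2.2 f hf⟩)
    refine forall_congr' fun f => ?_
    have h1 : ∀ (y : ∀ i, Matrix (Fin (N i)) (Fin (N i)) (AlgebraicClosure ℚ_[ℓ]))
        (b : Matrix (Fin m) (Fin m) (AlgebraicClosure ℚ_[ℓ])),
        value f y b = R932.GR.eva y b f := by
      intro y b
      show MvPolynomial.aeval _ f = MvPolynomial.eval _ f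
      rw [MvPolynomial.aeval_def]
      rfl
    rw [h1]
    refine imp_congr (forall_congr' fun σ => ?_) Iff.rfl
    rw [h1]
    rfl
  have hmain := R932.GR.sato_main (K := K) (P := P) (kd := kd) (w := fun _ => w) hS hs J hfit
    (fun i => (hJ i).1) hwJ JA α hU hUα κ (fun ℓ _ v hv hvℓ σ hσ => hκ ℓ v hv hvℓ σ hσ) ρ
    (fun i ℓ _ => (hρ i ℓ).1) (fun i ℓ _ g => (hρ i ℓ).2.1 g)
    (fun i ℓ _ v hv hvℓ σ hσ => (hρ i ℓ).2.2 v hv hvℓ σ hσ) G
    (fun ℓ _ σ f hf => (hG1 ℓ σ).2.2 f hf)
    (fun x a hx ha h => ?_) ℓ₀ hal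
    (fun b h1 h2 j hj T hTb => ?_) hss (by
      intro i
      obtain ⟨v, hv, hvℓ, hn⟩ := hns i
      refine ⟨v, hv, hvℓ, fun n hn0 => ?_⟩
      by_contra hno
      push Not at hno
      exact hn ⟨n, hn0, hno⟩)
  · constructor
    · refine Y142.ZI.DensityZero.mono hmain.1 ?_
      rintro ℓ ⟨hp, hno⟩
      exact ⟨hp, fun h => hno (hiff ℓ _ h)⟩
    · intro ℓ _ hss hsc
      exact hiff ℓ _ (hmain.2 ℓ hss hsc)
  · refine hG2 x a ⟨fun i => hxdet i (x i) ?_, hadet a ha, fun f hf => h f hf⟩ ⟨fun i => ?_, ha⟩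
    · have h3 := hx i
      unfold Y142.ZS.Sim at h3
      rwa [one_smul] at h3
    · have h3 := hx i
      unfold Y142.ZS.Sim at h3
      rwa [one_smul] at h3
  · have h3 : j = 2 * w := by
      rw [Fin.sum_univ_four] at hj
      omega
    subst h3
    exact hT b h1 h2 T hTb

end

end Pool.Agent.Results.MP_d61fbb_ag.FourthMomentsAtOnePrime
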