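import Pool.Agent.R940.TnS

/-!
# The motivic Sato–Tate conjecture and the moments of the trace

`M` is a pure motive of rank `b`, `C` is a maximal compact subgroup of the group `𝒢_{1,k}(M)(ℂ)`, `ρ` is its
representation on the realisation of `M`, and `D` is the Sato–Tate group of `M`, a maximal compact
subgroup of `G_{1,ℓ,k}(M)(ℂ)`, with its inclusion `f` in `C`. The `2n`-th moment of the trace on `D` is,
conjecturally, the limit of the averages of the `2n`-th powers of the absolute values of the
normalised Frobenius traces; the `2n`-th moment of the trace on `C` is the value predicted by the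
motivic Sato–Tate conjecture.

If the moments of degree `2a` differ, then for all `n ≥ 1` the moment of degree `2(n+1)` of `D` is at
least `2(1 - a b^{2a+2} log(n+2)/n)` times that of `C`; if `D` meets all components of `C`, it is at
least `(m+2)(1 - (m+1) a b^{2(m+1)a+2} log(n+2)/n)` times that of `C` for all `m`, and at least
`log(n+2)/(32a(1+log(b+1)))` times that of `C`.

The moments of degree `2a` agree if and only if all the homogeneous polynomials of degree `a` in the
matrix entries that vanish on `D` vanish on `C`. If `C` preserves a nonzero bilinear form and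
`-1` is in the image of `D` (for example for motives of nonzero weight), `D` is Zariski dense in `C`
(that is, `G_{1,ℓ,k}(M) = 𝒢_{1,k}(M)`) if and only if all these moments agree, if and only if the moments
of `D` are at most `c` times the moments of `C` infinitely often, for some `c < 2`, and, if `D` meets all
components of `C`, if and only if the ratio of the moments does not tend to infinity.
-/

namespace Pool.Agent.Results.MP_d61fbb_ag.MomentsZeroInfinityLaw

open Pool.Agent.R940 Filter MeasureTheory

universe v

/-- The image of `f` meets all the components: no proper open subgroup contains it. -/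
def MeetsComponents {C D : Type v} [Group C] [TopologicalSpace C] [Group D] (f : D →* C) : Prop :=
  ∀ N : Subgroup C, IsOpen (N : Set C) → f.range ≤ N → N = ⊤

/-- **The zero-infinity law for the moments of Sato–Tate groups.** -/
theorem result {b : ℕ} (hb : 0 < b) {C D : Type v} [Group C] [TopologicalSpace C]
    [IsTopologicalGroup C] [CompactSpace C] [MeasurableSpace C] [BorelSpace C] [Group D]
    [TopologicalSpace D] [IsTopologicalGroup D] [CompactSpace D] [MeasurableSpace D] [BorelSpace D]
    (μ : Measure C) [IsProbabilityMeasure μ] [μ.IsMulLeftInvariant]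
    (ν : Measure D) [IsProbabilityMeasure ν] [ν.IsMulLeftInvariant]
    (ρ : C →* Matrix.unitaryGroup (Fin b) ℂ) (hρ : Continuous ρ) (f : D →* C)
    (hf : Continuous f) :
    (∀ a : ℕ, 0 < a → moment ν (ρ.comp f) a ≠ moment μ ρ a →
      TwiceMoments b a (moment ν (ρ.comp f)) (moment μ ρ) ∧
      (MeetsComponents f → ManyMoments b a (moment ν (ρ.comp f)) (moment μ ρ))) ∧
    (∀ a : ℕ, 0 < a → (moment ν (ρ.comp f) a = moment μ ρ a ↔
      DenseIn a (toGL (ρ.comp f)).range (toGL ρ).range)) ∧
    (∀ J : Matrix (Fin b) (Fin b) ℂ, J ≠ 0 →
      (∀ x, (ρ x : Matrix (Fin b) (Fin b) ℂ).transpose * J * (ρ x : Matrix (Fin b) (Fin b) ℂ) =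
        J) →
      (∃ y, (ρ (f y) : Matrix (Fin b) (Fin b) ℂ) = -1) →
      (ZDense (toGL (ρ.comp f)).range (toGL ρ).range ↔
        ∀ n, moment ν (ρ.comp f) n = moment μ ρ n) ∧
      (ZDense (toGL (ρ.comp f)).range (toGL ρ).range ↔
        ∃ c : ℝ, c < 2 ∧ ∃ᶠ n in atTop, moment ν (ρ.comp f) n ≤ c * moment μ ρ n) ∧
      (MeetsComponents f → (ZDense (toGL (ρ.comp f)).range (toGL ρ).range ↔
        ¬ Tendsto (fun n => moment ν (ρ.comp f) n / moment μ ρ n) atTop atTop))) :=
  ⟨fun _ ha hne => moment_law μ ν hb hρ hf ha hne,
    fun _ ha => inv_eq_of_moment μ ν hρ hf ha,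
    fun _ hJ0 hJ hneg => moment_dense μ ν hb hρ hf hJ0 hJ hneg⟩

end Pool.Agent.Results.MP_d61fbb_ag.MomentsZeroInfinityLaw
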