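import Pool.Agent.R918.Ell3

set_option autoImplicit false

/-!
# The motivic Sato-Tate conjecture for sums of motives of spin type

Let `k` be a finitely generated field of characteristic zero and let `M i` be finitely many motives over
`k` (of André, or for absolute Hodge cycles), pure of the same weight `w`; let `V i = ℚ_ℓ ^ (n i)` be
their `ℓ`-adic realizations, with the actions `ρ i` of the Galois group `Γ` of `k`, and let `M` be the
direct sum of the `M i`. Let `𝔤` be the Lie algebra of the `ℓ`-adic motivic Galois group of `M`; it acts on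
the sum of the `V i`. It is reductive, it is determined by the tensors which it kills, and these are
Tate tensors, since motivated classes are Tate classes (these properties are collected in `IsMotivic`).

The motivic Sato-Tate conjecture is equivalent to the motivic Tate conjecture and to the motivic
Mumford-Tate conjecture (see the problem). For `M` it says that the representation of `Γ` is
semisimple, and that the Tate tensors (in any number of variables, in `V` and its dual space, fixed by a
subgroup of finite index of `Γ`) are exactly the tensors killed by `𝔤` (`AllTate`); equivalently, the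
identity component of the `ℓ`-adic monodromy group is the identity component of the motivic Galois
group; so the same is true for the kernels of the multipliers.

Suppose that `M` is a sum of spin type (`SpinSumType`): over the complex numbers (for one embedding
`ℚ_ℓ → ℂ`), the realization of `M` is a direct sum of nonzero subspaces `U_1, …, U_m`, where `U_i` is a
representation of the Clifford algebra with `r_i ≥ 6` generators, and `𝔤` is the sum of the orthogonal
Lie algebras `so(r_1), …, so(r_m)`, where `so(r_i)` acts on `U_i` through the Clifford algebra (a sum of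
spin representations) and by zero on the other `U_j`, and of the scalars if `w ≠ 0`. Assume also that at
most one of the numbers `r_i` is equal to `8`.

**Theorem.**

* The conjecture holds for such a motive `M` (and so for all motives in the tensor category generated by
  `M`) if and only if the realization of `M` is semisimple and the Tate conjecture (with motivated
  cycles) holds for the endomorphisms of `M` (`EndTate`: the endomorphisms which commute with a
  subgroup of finite index of `Γ` commute with `𝔤`).
* It holds if (`GoodPolys`) for one element `γ` of `Γ` the characteristic polynomials on the `V i` are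
  irreducible over `ℚ_ℓ` and different, and the product of these polynomials has no multiple roots and
  no quotients of two roots which are roots of unity, different from `1`, and if for each `i` an
  element of `Γ` has a characteristic polynomial on `V i` without multiple roots and without such
  quotients, with one root in `ℚ_ℓ`.

So all the Tate classes on products of powers of the summands are reduced to those on `M ⊗ M^∨`, that is,
to the homomorphisms between the summands: if the conjecture holds for the summands, no relation between
them is possible except for the obvious ones. (For `w ≠ 0` the existence of one Frobenius element which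
acts purely of weight `w` is used, in order to see the scalars.)

For the motives `h^1(A)` of abelian varieties the two conditions in the first part are the theorem of
Faltings; for example `A` may be the product of the Kuga-Satake varieties of pairwise not similar K3
surfaces with endomorphisms `ℚ` of the transcendental lattices. The theorem is about motives of arbitrary
weight with these Galois groups, for which the semisimplicity is not known.

## Proof

Let `L` be the Lie algebra of the endomorphisms of `V` which kill all Tate tensors. It is contained in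
`𝔤`. By the theorem on bicommutants and the condition on the endomorphisms, `L` generates the same
associative algebra as `𝔤`, and for `w ≠ 0` it contains the scalars (since one element of `Γ` acts
purely of weight `w`). So the intersection `𝔥` of `L ⊗ ℂ` with the semisimple part `𝔰` of `𝔤 ⊗ ℂ`
generates an algebra which contains `𝔰`. Then `𝔥 = 𝔰`, by `Pool.Agent.R918.Sp.SpHyp.all`:

1. The projection of `𝔥` to each `so(r_i)` is surjective (`Pool.Agent.Y102.SP.main`).
2. By the lemma of Goursat and Ribet, if `𝔥` is not everything, its projection to two summands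
   `so(r_i) ⊕ so(r_j)` is the graph of an isomorphism, as these Lie algebras are simple and perfect.
3. An isomorphism between `so(r_i)` and `so(r_j)`, where `r_i ≥ 5` is not `8`, intertwines the spin
   representations (`Pool.Agent.R918.Sp.Lnk.exists_inter`). The proof does not use root systems or the
   classification of automorphisms.
4. So there is a nonzero `𝔥`-equivariant map from `U_i` to `U_j`. It commutes with the associative
   algebra generated by `𝔰`, which contains the projections to `U_i` and `U_j`. This is a contradiction.
-/

open Module TensorProduct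

noncomputable section

namespace Pool.Agent.Results.MP_d61fbb_ag.SpinSumMotives

open Pool.Agent.Y114.TF Pool.Agent.Y114.RM Pool.Agent.H204R3.GP Pool.Agent.R913.Adj

/-! ### Representations and the motivic Lie algebra -/

section tate

variable {k V Γ : Type} [Field k] [AddCommGroup V] [Module k V] [Group Γ]
  (ρ : Representation k Γ V) (𝔤 : Submodule k (End k V))

/-- The representation is semisimple under all subgroups of finite index, and the Tate tensors are the
tensors killed by `𝔤`. -/
def IsFull : Prop :=
  FiniteIndexSemisimple ρ ∧
    ∀ (m : ℕ) (φ : Tensor k V m), TateTensor ρ φ ↔ ∀ X ∈ 𝔤, KillsTensor X φ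

/-- An endomorphism which commutes with a subgroup of finite index of `Γ` commutes with `𝔤`. -/
def IsEndTate : Prop :=
  ∀ P : End k V, (∃ Δ : Subgroup Γ, Δ.FiniteIndex ∧ ∀ γ ∈ Δ, P * ρ γ = ρ γ * P) →
    ∀ X ∈ 𝔤, X * P = P * X

end tate

section props

variable (Γ : Type) [Group Γ] {ι : Type} (n : ι → ℕ) (ℓ : ℕ) [Fact ℓ.Prime]

/-- Representations of `Γ` on the spaces `ℚ_ℓ ^ (n i)`. -/
abbrev Reps : Type := ∀ i, Representation ℚ_[ℓ] Γ (Fin (n i) → ℚ_[ℓ])

/-- Spaces of endomorphisms of the direct sum of the spaces `ℚ_ℓ ^ (n i)`. -/
abbrev EndSpace : Type := Submodule ℚ_[ℓ] (End ℚ_[ℓ] (∀ i, Fin (n i) → ℚ_[ℓ]))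

variable {Γ n ℓ} (ρ : Reps Γ n ℓ) (𝔤 : EndSpace n ℓ)

/-- The representations are continuous. -/
def Conts [TopologicalSpace Γ] : Prop := ∀ i, Continuous fun g => LinearMap.toMatrix' (ρ i g)

/-- Some element of `Γ` acts purely of the weight `w` on all the representations: its characteristic
polynomials are rational, with all roots of absolute value `q ^ (w / 2)` for some `q > 1`. -/
def Pure (w : ℤ) : Prop := ∃ γ : Γ, ActsPurely ρ (fun _ => w) γ

variable [Fintype ι] [DecidableEq ι]

/-- `𝔤` has the properties of the Lie algebra of the motivic Galois group (see `IsMotivic`). -/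
def Motivic : Prop := IsMotivic ρ 𝔤

/-- The direct sum is semisimple as a representation of every subgroup of finite index. -/
def Semisimple : Prop := FiniteIndexSemisimple (sumRep ρ)

/-- The conjecture for the direct sum (see `IsFull`). -/
def AllTate : Prop := IsFull (sumRep ρ) 𝔤

/-- The Tate conjecture for the endomorphisms of the direct sum (see `IsEndTate`). -/
def EndTate : Prop := IsEndTate (sumRep ρ) 𝔤

end props

/-! ### Polynomials -/

/-- `f` has `deg f` different roots in an extension field, and no quotient of two different roots is a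
root of unity. -/
def NeatPoly {k : Type} [Field k] (f : Polynomial k) : Prop :=
  ∃ (Ω : Type) (_ : Field Ω) (_ : Algebra k Ω) (s : Finset Ω),
    (∀ a ∈ s, Polynomial.aeval a f = 0) ∧ s.card = f.natDegree ∧
    ∀ N : ℕ, 0 < N → ∀ a ∈ s, ∀ b ∈ s, a ^ N = b ^ N → a = b

/-- One element of `Γ` acts on the representations with different irreducible characteristic
polynomials whose product is a `NeatPoly`; and for every `i` some element acts on the `i`-th
representation with a `NeatPoly` with a root in the field. -/
def GoodPolys {k : Type} [Field k] {ι : Type} [Fintype ι] {V : ι → Type}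
    [∀ i, AddCommGroup (V i)] [∀ i, Module k (V i)] [∀ i, FiniteDimensional k (V i)] {Γ : Type}
    [Group Γ] (ρ : ∀ i, Representation k Γ (V i)) : Prop :=
  (∃ γ : Γ, (∀ i, Irreducible (ρ i γ).charpoly) ∧
    (∀ i j, i ≠ j → (ρ i γ).charpoly ≠ (ρ j γ).charpoly) ∧ NeatPoly (∏ i, (ρ i γ).charpoly)) ∧
  ∀ i, ∃ γ : Γ, NeatPoly (ρ i γ).charpoly ∧ ∃ β, (ρ i γ).charpoly.IsRoot β

/-! ### The spin type -/

section types

/-- The scalars if the weight `w` is not zero, and nothing if it is zero. -/
def scalars (H : Type) [AddCommGroup H] [Module ℂ H] (w : ℤ) : Submodule ℂ (End ℂ H) :=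
  if w = 0 then ⊥ else Submodule.span ℂ {1}

/-- The relations of the Clifford algebra with `r` generators. -/
def IsClifford {U : Type} [AddCommGroup U] [Module ℂ U] {r : ℕ} (E : Fin r → End ℂ U) : Prop :=
  (∀ a, E a * E a = 1) ∧ ∀ a b, a ≠ b → E a * E b = -(E b * E a)

section dec

variable {H : Type} [AddCommGroup H] [Module ℂ H] {m : ℕ} {d : Fin m → ℕ}
  (P : ∀ i, H →ₗ[ℂ] (Fin (d i) → ℂ)) (Q : ∀ i, (Fin (d i) → ℂ) →ₗ[ℂ] H)

/-- `H` is the direct sum of the nonzero spaces `ℂ ^ (d i)`, with the inclusions `Q i` and the
projections `P i`. -/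
def IsDecomposition : Prop :=
  (∀ i, 0 < d i) ∧ (∀ i u, P i (Q i u) = u) ∧ (∀ i j, i ≠ j → ∀ u, P i (Q j u) = 0) ∧
    ∀ x, ∑ i, Q i (P i x) = x

/-- The sum of the orthogonal Lie algebras `so(r i)`, spanned by the products of two different
generators `E i a`, acting on the summands. -/
def sumSo {r : Fin m → ℕ} (E : ∀ i, Fin (r i) → End ℂ (Fin (d i) → ℂ)) :
    Submodule ℂ (End ℂ H) :=
  Submodule.span ℂ {Y | ∃ i a b, a ≠ b ∧ Y = Q i ∘ₗ (E i a * E i b) ∘ₗ P i}

end dec

/-- **Sums of spin type.** The complex vector space `H` is a direct sum of nonzero spaces `ℂ ^ (d i)`,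
which are representations of Clifford algebras with `r i ≥ 6` generators, at most one `r i` is equal to
`8`, and the Lie algebra `𝔩` is the sum of the orthogonal Lie algebras `so(r i)`, and of the scalars if
the weight `w` is not zero. -/
def IsSpinSum {H : Type} [AddCommGroup H] [Module ℂ H] (𝔩 : Submodule ℂ (End ℂ H)) (w : ℤ) :
    Prop :=
  ∃ (m : ℕ) (d r : Fin m → ℕ) (P : ∀ i, H →ₗ[ℂ] (Fin (d i) → ℂ))
    (Q : ∀ i, (Fin (d i) → ℂ) →ₗ[ℂ] H) (E : ∀ i, Fin (r i) → End ℂ (Fin (d i) → ℂ)),
    IsDecomposition P Q ∧ (∀ i, IsClifford (E i)) ∧
    (∀ i, 6 ≤ r i) ∧ (∀ i j, i ≠ j → r i = 8 → r j ≠ 8) ∧ 𝔩 = sumSo P Q E ⊔ scalars H w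

variable {ι : Type} {n : ι → ℕ} {ℓ : ℕ} [Fact ℓ.Prime] [Algebra ℚ_[ℓ] ℂ]

/-- The complexification of the direct sum of the `ℚ_ℓ ^ (n i)`. -/
abbrev VC (n : ι → ℕ) (ℓ : ℕ) [Fact ℓ.Prime] [Algebra ℚ_[ℓ] ℂ] : Type :=
  ℂ ⊗[ℚ_[ℓ]] (∀ i, Fin (n i) → ℚ_[ℓ])

/-- The complexification `𝔤 ⊗ ℂ`, which acts on the complexification of the direct sum. -/
def lieC (𝔤 : EndSpace n ℓ) : Submodule ℂ (End ℂ (VC n ℓ)) :=
  Submodule.span ℂ {Y | ∃ X ∈ 𝔤, Y = X.baseChange ℂ}

/-- The motivic Lie algebra is a sum of spin type, over the complex numbers. -/
def SpinSumType (w : ℤ) (𝔤 : EndSpace n ℓ) : Prop := IsSpinSum (lieC 𝔤) w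

end types

/-- **Theorem.** Let `M` be a direct sum of motives of weight `w`, such that `M` is a sum of spin type.
The motivic Sato-Tate conjecture holds for `M` (up to finite groups) if and only if the realization of
`M` is semisimple and the Tate conjecture holds for the endomorphisms of `M`. It holds if the
conditions `GoodPolys` on characteristic polynomials are satisfied. -/
theorem result {Γ : Type} [Group Γ] [TopologicalSpace Γ] [IsTopologicalGroup Γ] [CompactSpace Γ]
    {ι : Type} [Fintype ι] [DecidableEq ι] {n : ι → ℕ} {ℓ : ℕ} [Fact ℓ.Prime] [Algebra ℚ_[ℓ] ℂ]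
    (ρ : Reps Γ n ℓ) (hρ : Conts ρ) (w : ℤ) (hw : w ≠ 0 → Pure ρ w)
    (𝔤 : EndSpace n ℓ) (h𝔤 : Motivic ρ 𝔤) (ht : SpinSumType w 𝔤) :
    (AllTate ρ 𝔤 ↔ Semisimple ρ ∧ EndTate ρ 𝔤) ∧ (GoodPolys ρ → AllTate ρ 𝔤) := by
  have key : Semisimple ρ ∧ EndTate ρ 𝔤 → AllTate ρ 𝔤 := by
    rintro ⟨hss, hend⟩
    obtain ⟨m, d, r, P, Q, E, ⟨h1, h2, h3, h4⟩, hE, hr, h8, hl⟩ := ht
    have : ∀ i, Nontrivial (Fin (d i) → ℂ) := fun i => by
      have : Nonempty (Fin (d i)) := ⟨⟨0, h1 i⟩⟩
      infer_instance
    refine ⟨hss, Pool.Agent.R918.Ell.tate_of_rig ρ hρ h𝔤 hss hend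
      (Pool.Agent.R918.Ell.rig_sum (P := P) (Q := Q) (E := E) ⟨h2, h3, h4⟩
        (fun i => ⟨(hE i).1, (hE i).2⟩) hr h8) w hw ?_⟩
    refine Eq.trans ?_ hl
    unfold bcS lieC
    congr 1
    ext Y
    constructor
    · rintro ⟨X, hX, rfl⟩
      exact ⟨X, hX, rfl⟩
    · rintro ⟨X, hX, rfl⟩
      exact ⟨X, hX, rfl⟩
  refine ⟨⟨?_, key⟩, fun h => key ?_⟩
  · rintro ⟨hss, h⟩
    exact ⟨hss, Pool.Agent.R918.Ell.endTate_of_tate (sumRep ρ) h⟩
  · exact Pool.Agent.R918.Ell.of_goodPolys ρ (IsMotivic.parts h𝔤) h

end Pool.Agent.Results.MP_d61fbb_ag.SpinSumMotives
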