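import Mathlib
import Pool.Agent.R696.MS.Over
import Pool.Agent.Results.MP_de8692_ag.SumsWithAnyMotive

/-!
# The motivic Sato-Tate conjecture for the sum of `h ^ 1` of an abelian variety and an arbitrary motive

Let `A` be an abelian variety over a field `k` which is finitely generated over `ℚ`, `ℓ` a prime number,
`V = V_ℓ(A)` the rational Tate module, `χ` the cyclotomic character and `ω` the Weil pairing of a polarization.
By Faltings `V` is semisimple, also over finite extensions of `k` (`IsTateModule`). Suppose that `A` is good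
(`IsGood`, see `Pool/Agent/Results/MP_de8692_ag/SumsWithAnyMotive.lean`): every strongly irreducible subspace `U`
of `V`, with coefficients extended to the algebraic closure of `ℚ_ℓ`, is symplectic, and for each `U` there is
one place (which may depend on `U`) at which a slope is simple on `U`, or an outer slope occurs on `U` if the
dimension of `U` is at most four, or the reduction is semistable of toric rank one on `U`; or the dimensions of
the subspaces `U` are four or two modulo four and the Frobenius elements with two slopes are dense.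

Let `N` be ANY motive over `k` (for absolute Hodge cycles, or in the sense of André), pure of the same weight
(for instance `h ^ (2 m + 1)(X)(m)` for a smooth projective variety `X`), with `ℓ`-adic realization `W`. Suppose
that the Galois action on `W` is potentially abelian, or, much more generally, that for every piece `U`
every subgroup of finite index contains an element which acts trivially on `W`, with `χ = 1`, and which
acts nontrivially on `U` (`KernelActs`; for instance an element of an inertia group at a place where `N` has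
potentially good reduction).

Let `H` be the group of the `ℚ_ℓ`-points of the motivic Galois group of `M = h ^ 1(A) ⊕ N` over `k`, with its
actions `R` on `V` and `T` on `W` and the character `ν` (the multiplier on a polarization form on `M`); let
`H₀` be its identity component and `i : Γ → H` the homomorphism from the Galois group of `k`. By the theorem of
Faltings the Tate classes of degree two on `A × A` are divisor classes, which are fixed by `H₀`
(hypothesis `hdegree`). Let `Δ` be a subgroup of finite index of `Γ`, `k'` its fixed field. The motivic Galois group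
over `k'` is the union of the components `i(g) H₀`, `g ∈ Δ` (`Belongs`); this is all of `H` for `k' = k`, since
motives with finite motivic Galois groups are Artin motives.

The group `G_{1,ℓ,k'}(M)` is the kernel of `χ` on the `ℓ`-adic monodromy group over `k'`, and
`𝒢_{1,k'}(M)` is the kernel of `ν` on the motivic Galois group. The tensors fixed by `G_{1,ℓ,k'}(M)` are
the sums of tensors on which the monodromy group, or equivalently `Δ`, acts by powers `χ ^ j`. As the groups are
reductive, the motivic Sato-Tate conjecture over `k'` (`G_{1,ℓ,k'}(M) = 𝒢_{1,k'}(M)` over `ℚ_ℓ`) says that the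
elements of `𝒢_{1,k'}(M)` fix all these tensors (`SatoTateOver`; the dual spaces are contained in tensor powers
up to twists by the polarization). The same statement for the kernel of `ν` in the identity component is
`SatoTateConnected`; and `TateOver` is the motivic Tate conjecture, for the groups themselves.

**Theorem.** (1) The motivic Sato-Tate conjecture for the kernels in the identity components holds for
`M = h ^ 1(A) ⊕ N` if and only if it holds for `N`.
(2) If the motivic Tate conjecture (which is equivalent to the motivic Sato-Tate conjecture for all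
motives) holds for `N` over all finite extensions, then the motivic Sato-Tate conjecture holds for
`M = h ^ 1(A) ⊕ N` over all finite extensions `k'` of `k`, and over `k` itself, for the full kernels with all
their components.

For instance it is true for `A × B` for all abelian varieties `B` with complex multiplication.
-/

namespace Pool.Agent.Results.MP_d61fbb_ag.SumsWithAnyMotive

open Module Pool.Agent.R930 Pool.Agent.TH776.FM Pool.Agent.H204R3.GP Pool.Agent.Y126.Notions
  Pool.Agent.R930.Notions
open Pool.Agent.Results.MP_021685_ag.ProductsOverNumberFields (KernelActs PotentiallyAbelian)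
open Pool.Agent.Results.MP_de8692_ag.SumsWithAnyMotive (IsGood ContinuousIntegral)
open Pool.Agent.R696.MS (Belongs TateOver tateOver_iff)

section defs

variable {k V Γ H : Type} [Field k] [AddCommGroup V] [Module k V] [Group Γ] [Group H]

/-- The tensors on which `Δ` acts by powers of the character are fixed by the elements of the motivic
Galois group over the fixed field of `Δ` at which the character is trivial. -/
def SatoTateOver (i : Γ →* H) (H₀ : Subgroup H) (R : Representation k H V) (ν : H →* k)
    (Δ : Subgroup Γ) : Prop :=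
  ∀ (s : ℕ) (j : ℤ) (φ : MultilinearMap k (fun _ : Fin s => V) k),
    (∀ g ∈ Δ, ∀ v : Fin s → V, φ (fun l => R (i g) (v l)) = ν (i g) ^ j * φ v) →
    ∀ h : H, Belongs i H₀ Δ h → ν h = 1 → ∀ v : Fin s → V, φ (fun l => R h (v l)) = φ v

/-- The tensors on which a subgroup of finite index acts by a power of the character are fixed by the
elements of the identity component at which the character is trivial. -/
def SatoTateConnected (i : Γ →* H) (H₀ : Subgroup H) (R : Representation k H V) (ν : H →* k) :
    Prop :=
  ∀ (s : ℕ) (j : ℤ) (φ : MultilinearMap k (fun _ : Fin s => V) k),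
    (∃ Δ : Subgroup Γ, Δ.FiniteIndex ∧
      ∀ g ∈ Δ, ∀ v : Fin s → V, φ (fun l => R (i g) (v l)) = ν (i g) ^ j * φ v) →
    ∀ h ∈ H₀, ν h = 1 → ∀ v : Fin s → V, φ (fun l => R h (v l)) = φ v

theorem connected_iff (i : Γ →* H) (H₀ : Subgroup H) (R : Representation k H V) (ν : H →* k) :
    SatoTateConnected i H₀ R ν ↔
      FixesTateTensors (R.comp i) (ν.comp i) (R.comp (H₀ ⊓ ν.ker).subtype) 1 := by
  constructor
  · rintro h s j φ ⟨Δ, hΔ, hφ⟩ x v
    have h1 := h s j φ ⟨Δ, hΔ, hφ⟩ x.1 x.2.1 x.2.2 v
    rw [MonoidHom.one_apply, one_zpow, one_mul]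
    exact h1
  · rintro h s j φ ⟨Δ, hΔ, hφ⟩ x hx hx1 v
    have h1 := h s j φ ⟨Δ, hΔ, hφ⟩ ⟨x, hx, hx1⟩ v
    rw [MonoidHom.one_apply, one_zpow, one_mul] at h1
    exact h1

end defs

/-- **The motivic Sato-Tate conjecture for `h ^ 1(A) ⊕ N`.** -/
theorem result (ℓ : ℕ) [Fact ℓ.Prime] {V Γ : Type} [AddCommGroup V] [Module ℚ_[ℓ] V]
    [FiniteDimensional ℚ_[ℓ] V] [Group Γ] [TopologicalSpace Γ] [IsTopologicalGroup Γ]
    {W : Type} [AddCommGroup W] [Module ℚ_[ℓ] W] [FiniteDimensional ℚ_[ℓ] W]
    -- the motivic Galois group, its identity component, its actions and the character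
    {H : Type} [Group H] (i : Γ →* H) (H₀ : Subgroup H) (R : Representation ℚ_[ℓ] H V)
    (T : Representation ℚ_[ℓ] H W) (ν : H →* ℚ_[ℓ])
    -- the abelian variety
    (ω : V →ₗ[ℚ_[ℓ]] V →ₗ[ℚ_[ℓ]] ℚ_[ℓ]) (hA : IsTateModule (R.comp i) (ν.comp i) ω)
    (hcontinuous : ContinuousIntegral (R.comp i)) (hgood : IsGood (R.comp i) (ν.comp i))
    (hdegree : ∀ B : V →ₗ[ℚ_[ℓ]] V →ₗ[ℚ_[ℓ]] ℚ_[ℓ], IsTate2 (R.comp i) (ν.comp i) B →
      ∀ h ∈ H₀, ∀ u v, B (R h u) (R h v) = ν h * B u v)
    -- the motive `N`
    (hW : PotentiallyAbelian (T.comp i) ∨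
      KernelActs (extend (AlgebraicClosure ℚ_[ℓ]) (R.comp i))
      ((algebraMap ℚ_[ℓ] (AlgebraicClosure ℚ_[ℓ]) : ℚ_[ℓ] →* _).comp (ν.comp i)) (T.comp i)) :
    (SatoTateConnected i H₀ (R.prod T) ν ↔ SatoTateConnected i H₀ T ν) ∧
    ((∀ Δ : Subgroup Γ, Δ.FiniteIndex → TateOver i H₀ T ν Δ) →
      (∀ Δ : Subgroup Γ, Δ.FiniteIndex → SatoTateOver i H₀ (R.prod T) ν Δ) ∧
      ((∀ h : H, ∃ g : Γ, (i g)⁻¹ * h ∈ H₀) →
        ∀ (s : ℕ) (j : ℤ) (φ : MultilinearMap ℚ_[ℓ] (fun _ : Fin s => V × W) ℚ_[ℓ]),
        (∀ (g : Γ) (v : Fin s → V × W),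
          φ (fun l => (R.prod T) (i g) (v l)) = ν (i g) ^ j * φ v) →
        ∀ h : H, ν h = 1 → ∀ v : Fin s → V × W, φ (fun l => (R.prod T) h (v l)) = φ v)) := by
  refine ⟨?_, fun hN => ?_⟩
  · rw [connected_iff, connected_iff]
    refine Pool.Agent.Results.MP_de8692_ag.SumsWithAnyMotive.result ℓ (R.comp i) (ν.comp i) ω hA
      hcontinuous hgood (T.comp i) hW (R.comp (H₀ ⊓ ν.ker).subtype)
      (T.comp (H₀ ⊓ ν.ker).subtype) 1 (fun B hB h u v => ?_)
    have h1 := hdegree B hB h.1 h.2.1 u v
    have h2 : ν h.1 = 1 := h.2.2
    rw [h2] at h1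
    exact h1
  · have key : ∀ Δ : Subgroup Γ, Δ.FiniteIndex → TateOver i H₀ (R.prod T) ν Δ := by
      rw [tateOver_iff] at hN ⊢
      exact (Pool.Agent.Results.MP_de8692_ag.SumsWithAnyMotive.result ℓ (R.comp i) (ν.comp i) ω hA
        hcontinuous hgood (T.comp i) hW (R.comp H₀.subtype) (T.comp H₀.subtype)
        (ν.comp H₀.subtype) (fun B hB h u v => hdegree B hB h.1 h.2 u v)).2 hN
    have hST : ∀ Δ : Subgroup Γ, Δ.FiniteIndex → SatoTateOver i H₀ (R.prod T) ν Δ := by
      intro Δ hΔ s j φ hφ h hh hν v
      have h1 := key Δ hΔ s j φ hφ h hh v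
      rwa [hν, one_zpow, one_mul] at h1
    refine ⟨hST, fun hπ s j φ hφ h hν v => ?_⟩
    obtain ⟨g, hg⟩ := hπ h
    exact hST ⊤ inferInstance s j φ (fun g _ v => hφ g v) h ⟨g, Subgroup.mem_top g, hg⟩ hν v

end Pool.Agent.Results.MP_d61fbb_ag.SumsWithAnyMotive
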